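import Mathlib

/-!
# Loopless multigraphs, circuits and circuit double covers
-/

set_option autoImplicit false

open Finset

namespace Pool.Agent.Lib.CDC

/-- A loopless multigraph with vertex set `V` and edge set `E`: every edge has an unordered pair
of two distinct ends, and parallel edges are allowed. -/
structure MultiGraph (V E : Type*) where
  /-- the unordered pair of ends of an edge -/
  ends : E → Sym2 V
  /-- the two ends of an edge are distinct -/
  loopless : ∀ e, ¬ (ends e).IsDiag

namespace MultiGraph

variable {V E : Type*} (G : MultiGraph V E)

open scoped Classical in
/-- The number of edges of the edge set `S` incident with the vertex `v`. -/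
noncomputable def deg (S : Finset E) (v : V) : ℕ := (S.filter fun e => v ∈ G.ends e).card

/-- Two vertices are joined by a walk all of whose edges lie in the edge set `S`. -/
def Joined (S : Finset E) (v w : V) : Prop :=
  Relation.ReflTransGen (fun x y => ∃ e ∈ S, G.ends e = s(x, y)) v w

/-- A graph is cubic if every vertex is incident with exactly three edges. -/
def IsCubic [Fintype E] : Prop := ∀ v, G.deg Finset.univ v = 3

/-- A circuit, given by its edge set: a connected `2`-regular subgraph.  The edge set is
not empty, every vertex is incident with no or with exactly two of its edges, and any two vertices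
incident with its edges are joined by a walk using its edges only. -/
def IsCircuit (C : Finset E) : Prop :=
  C.Nonempty ∧ (∀ v, G.deg C v = 0 ∨ G.deg C v = 2) ∧
    ∀ v w, G.deg C v ≠ 0 → G.deg C w ≠ 0 → G.Joined C v w

open scoped Classical in
/-- A circuit double cover: a finite family of circuits, repetitions allowed, such that every edge
of the graph lies in exactly two members of the family. -/
def IsCircuitDoubleCover (𝓕 : Multiset (Finset E)) : Prop :=
  (∀ D ∈ 𝓕, G.IsCircuit D) ∧ ∀ e : E, 𝓕.countP (fun D => e ∈ D) = 2

end MultiGraph

end Pool.Agent.Lib.CDC
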