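import Mathlib
import Pool.Agent.Lib.CDC.Defs

/-!
# Boundaries of functions on the edges of a multigraph
-/

set_option autoImplicit false

open Finset

noncomputable section

namespace Pool.Agent.Lib.CDC

namespace MultiGraph

variable {V E : Type*} (G : MultiGraph V E)

open scoped Classical in
/-- The boundary of a function on the edges. -/
def bd [Fintype E] {R : Type*} [AddCommMonoid R] (f : E → R) (v : V) : R :=
  ∑ e, if v ∈ G.ends e then f e else 0

theorem exists_ends (e : E) : ∃ x y, x ≠ y ∧ G.ends e = s(x, y) := by
  have h := G.loopless e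
  induction h2 : G.ends e using Sym2.ind with
  | _ x y =>
    refine ⟨x, y, ?_, rfl⟩
    rintro rfl
    exact h (by rw [h2]; simp)

theorem joined_symm {S : Finset E} {v w : V} (h : G.Joined S v w) : G.Joined S w v := by
  induction h with
  | refl => exact Relation.ReflTransGen.refl
  | tail _ hxy ih =>
    obtain ⟨e, he, hxy⟩ := hxy
    exact Relation.ReflTransGen.head ⟨e, he, by rw [hxy, Sym2.eq_swap]⟩ ih

theorem joined_of_ends {S : Finset E} {e : E} (he : e ∈ S) {x y : V} (hx : x ∈ G.ends e)
    (hy : y ∈ G.ends e) : G.Joined S x y := by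
  obtain ⟨a, b, hab, hends⟩ := G.exists_ends e
  rw [hends, Sym2.mem_iff] at hx hy
  rcases hx with rfl | rfl <;> rcases hy with rfl | rfl
  · exact Relation.ReflTransGen.refl
  · exact Relation.ReflTransGen.single ⟨e, he, hends⟩
  · exact Relation.ReflTransGen.single ⟨e, he, by rw [hends, Sym2.eq_swap]⟩
  · exact Relation.ReflTransGen.refl

/-- Being joined by a walk is an equivalence relation. -/
def joinedSetoid (S : Finset E) : Setoid V where
  r := G.Joined S
  iseqv := ⟨fun _ => Relation.ReflTransGen.refl, fun h => G.joined_symm h,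
    fun h1 h2 => Relation.ReflTransGen.trans h1 h2⟩

variable [Fintype E]

section Ring

variable {R : Type*} [CommRing R]

theorem bd_add (f g : E → R) (v : V) : G.bd (fun e => f e + g e) v = G.bd f v + G.bd g v := by
  classical
  simp only [bd, ← Finset.sum_add_distrib]
  refine Finset.sum_congr rfl fun e _ => ?_
  split_ifs <;> simp

theorem bd_mul (c : R) (f : E → R) (v : V) : G.bd (fun e => c * f e) v = c * G.bd f v := by
  classical
  simp only [bd, Finset.mul_sum]
  refine Finset.sum_congr rfl fun e _ => ?_
  split_ifs <;> simp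

theorem bd_sum {ι : Type*} (s : Finset ι) (f : ι → E → R) (v : V) :
    G.bd (fun e => ∑ i ∈ s, f i e) v = ∑ i ∈ s, G.bd (f i) v := by
  classical
  simp only [bd]
  rw [Finset.sum_comm]
  refine Finset.sum_congr rfl fun e _ => ?_
  split_ifs <;> simp

theorem bd_congr {f g : E → R} {v : V} (h : ∀ e, v ∈ G.ends e → f e = g e) :
    G.bd f v = G.bd g v := by
  classical
  simp only [bd]
  refine Finset.sum_congr rfl fun e _ => ?_
  split_ifs with h1
  · exact h e h1
  · rfl

theorem bd_map {R' : Type*} [CommRing R'] (ζ : R →+ R') (f : E → R) (v : V) :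
    ζ (G.bd f v) = G.bd (fun e => ζ (f e)) v := by
  classical
  simp only [bd, map_sum]
  refine Finset.sum_congr rfl fun e _ => ?_
  split_ifs <;> simp

/-- The handshake lemma in weighted form. -/
theorem sum_mul_bd [Fintype V] (w : V → R) (f : E → R)
    (h : ∀ e x y, x ≠ y → G.ends e = s(x, y) → (w x + w y) * f e = 0) :
    ∑ v, w v * G.bd f v = 0 := by
  classical
  simp only [bd, Finset.mul_sum]
  rw [Finset.sum_comm]
  refine Finset.sum_eq_zero fun e _ => ?_
  obtain ⟨x, y, hxy, he⟩ := G.exists_ends e
  have h1 := h e x y hxy he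
  have h2 : ∀ v, (w v * if v ∈ G.ends e then f e else 0) =
      (if v = x then w x * f e else 0) + (if v = y then w y * f e else 0) := by
    intro v
    rw [he]
    simp only [Sym2.mem_iff]
    by_cases hx : v = x
    · subst hx
      simp [hxy]
    · by_cases hy : v = y
      · subst hy
        simp [hx]
      · simp [hx, hy]
  rw [Finset.sum_congr rfl fun v _ => h2 v, Finset.sum_add_distrib]
  simp only [Finset.sum_ite_eq', Finset.mem_univ, if_true]
  linear_combination h1

variable [CharP R 2]

theorem sum_bd [Fintype V] (f : E → R) : ∑ v, G.bd f v = 0 := by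
  have := G.sum_mul_bd (fun _ => (1 : R)) f (fun e x y _ _ => by
    have : (1 : R) + 1 = 0 := CharTwo.add_self_eq_zero 1
    rw [this, zero_mul])
  simpa using this

/-- Walks give functions whose boundary is concentrated in the two ends of the walk. -/
theorem exists_path_fn [DecidableEq V] {S : Finset E} {v w : V} (h : G.Joined S v w) :
    ∃ p : E → R, (∀ e ∉ S, p e = 0) ∧
      ∀ u, G.bd p u = (if u = v then 1 else 0) + (if u = w then 1 else 0) := by
  classical
  induction h with
  | refl =>
    refine ⟨fun _ => 0, fun _ _ => rfl, fun u => ?_⟩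
    rw [CharTwo.add_self_eq_zero]
    simp [bd]
  | @tail x y _ hxy ih =>
    obtain ⟨e, he, hends⟩ := hxy
    obtain ⟨p, hp, hp2⟩ := ih
    refine ⟨fun f => p f + if f = e then 1 else 0, fun f hf => ?_, fun u => ?_⟩
    · change p f + (if f = e then 1 else 0) = 0
      have hfe : f ≠ e := by
        rintro rfl
        exact hf he
      rw [hp f hf, if_neg hfe, zero_add]
    · rw [bd_add, hp2]
      have hne : x ≠ y := by
        rintro rfl
        exact G.loopless e (by rw [hends]; simp)
      have h1 : G.bd (fun f => if f = e then (1 : R) else 0) u =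
          (if u = x then 1 else 0) + (if u = y then 1 else 0) := by
        simp only [bd]
        rw [Finset.sum_eq_single e]
        · rw [hends]
          simp only [Sym2.mem_iff, if_true]
          by_cases hx : u = x
          · subst hx
            simp [hne]
          · simp [hx]
        · intro f _ hf
          simp [hf]
        · simp
      rw [h1]
      have h2 := CharTwo.add_self_eq_zero (if u = x then (1 : R) else 0)
      linear_combination h2

/-- Every function on the vertices with sum zero, supported on vertices joined to `v₀`, is a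
boundary. -/
theorem exists_bd_eq [Fintype V] {S : Finset E} (t : V → R) (v₀ : V)
    (h : ∀ v, t v ≠ 0 → G.Joined S v v₀) (h0 : ∑ v, t v = 0) :
    ∃ s : E → R, (∀ e ∉ S, s e = 0) ∧ ∀ u, G.bd s u = t u := by
  classical
  have hex : ∀ v, ∃ p : E → R, (∀ e ∉ S, p e = 0) ∧
      ∀ u, t v * G.bd p u = t v * ((if u = v then 1 else 0) + (if u = v₀ then 1 else 0)) := by
    intro v
    by_cases hv : t v = 0
    · exact ⟨fun _ => 0, fun _ _ => rfl, fun u => by rw [hv, zero_mul, zero_mul]⟩
    · obtain ⟨p, hp, hp2⟩ := G.exists_path_fn (R := R) (h v hv)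
      exact ⟨p, hp, fun u => by rw [hp2]⟩
  choose p hp hp2 using hex
  refine ⟨fun e => ∑ v, t v * p v e, fun e he => ?_, fun u => ?_⟩
  · exact Finset.sum_eq_zero fun v _ => by rw [hp v e he, mul_zero]
  · rw [bd_sum]
    simp only [bd_mul, hp2, mul_add, Finset.sum_add_distrib, mul_ite, mul_one, mul_zero]
    simp only [Finset.sum_ite_eq, Finset.mem_univ, if_true]
    split_ifs
    · rw [h0, add_zero]
    · simp

end Ring

/-- At a vertex incident with no or two edges of `C`, the boundary of functions supported on `C`
is explicit. -/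
theorem bd_cases {R : Type*} [CommRing R] {C : Finset E} {v : V}
    (h : G.deg C v = 0 ∨ G.deg C v = 2) :
    (∀ f : E → R, (∀ e ∉ C, f e = 0) → G.bd f v = 0) ∨
      ∃ e₁ e₂, ∀ f : E → R, (∀ e ∉ C, f e = 0) → G.bd f v = f e₁ + f e₂ := by
  classical
  have key : ∀ f : E → R, (∀ e ∉ C, f e = 0) →
      G.bd f v = ∑ e ∈ C.filter (fun e => v ∈ G.ends e), f e := by
    intro f hf
    simp only [bd]
    rw [← Finset.sum_filter]
    symm
    refine Finset.sum_subset ?_ ?_
    · intro e he
      simp only [Finset.mem_filter, Finset.mem_univ, true_and] at he ⊢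
      exact he.2
    · intro e he he2
      simp only [Finset.mem_filter, Finset.mem_univ, true_and] at he he2
      exact hf e (fun h => he2 ⟨h, he⟩)
  rcases h with h | h
  · left
    intro f hf
    rw [key f hf]
    have h1 : C.filter (fun e => v ∈ G.ends e) = ∅ := by
      rw [← Finset.card_eq_zero, ← h, deg]
    rw [h1, Finset.sum_empty]
  · right
    have h1 : (C.filter (fun e => v ∈ G.ends e)).card = 2 := by
      rw [← h, deg]
    obtain ⟨e₁, e₂, hne, h2⟩ := Finset.card_eq_two.mp h1
    refine ⟨e₁, e₂, fun f hf => ?_⟩
    rw [key f hf, h2, Finset.sum_pair hne]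

/-- The boundary of the indicator function of `S` is the degree in `S`. -/
theorem bd_indicator {R : Type*} [CommRing R] (S : Finset E) (v : V) [DecidableEq E] :
    G.bd (fun e => if e ∈ S then (1 : R) else 0) v = (G.deg S v : R) := by
  classical
  simp only [bd, deg]
  rw [Finset.card_filter]
  push_cast
  rw [← Finset.sum_filter, ← Finset.sum_filter, Finset.sum_ite, Finset.sum_const_zero, add_zero]
  rw [Finset.sum_const, Finset.sum_const]
  congr 1
  congr 1
  ext e
  simp [and_comm]

end MultiGraph

end Pool.Agent.Lib.CDC
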