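import Mathlib
import Pool.Agent.Lib.CDC.Basic

/-!
# Even subgraphs of subcubic multigraphs decompose into circuits
-/

set_option autoImplicit false

open Finset

noncomputable section

namespace Pool.Agent.Lib.CDC

namespace MultiGraph

variable {V E : Type*} (G : MultiGraph V E)

open scoped Classical in
/-- The edges of `D` in the component of `v₀`. -/
def comp (D : Finset E) (v₀ : V) : Finset E :=
  D.filter fun e => ∃ x ∈ G.ends e, G.Joined D v₀ x

open scoped Classical in
theorem mem_comp {D : Finset E} {v₀ : V} {e : E} :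
    e ∈ G.comp D v₀ ↔ e ∈ D ∧ ∃ x ∈ G.ends e, G.Joined D v₀ x := by
  unfold comp
  rw [Finset.mem_filter]

theorem comp_subset (D : Finset E) (v₀ : V) : G.comp D v₀ ⊆ D := fun _ he =>
  (G.mem_comp.mp he).1

theorem joined_of_mem_comp {D : Finset E} {v₀ v : V} {e : E} (he : e ∈ G.comp D v₀)
    (hv : v ∈ G.ends e) : G.Joined D v₀ v := by
  obtain ⟨h1, x, hx, h2⟩ := G.mem_comp.mp he
  exact Relation.ReflTransGen.trans h2 (G.joined_of_ends h1 hx hv)

theorem deg_comp_of_joined {D : Finset E} {v₀ v : V} (h : G.Joined D v₀ v) :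
    G.deg (G.comp D v₀) v = G.deg D v := by
  classical
  unfold deg
  congr 1
  ext e
  rw [Finset.mem_filter, Finset.mem_filter, G.mem_comp]
  constructor
  · rintro ⟨⟨h1, -⟩, h2⟩
    exact ⟨h1, h2⟩
  · rintro ⟨h1, h2⟩
    exact ⟨⟨h1, v, h2, h⟩, h2⟩

theorem deg_comp_of_not_joined {D : Finset E} {v₀ v : V} (h : ¬ G.Joined D v₀ v) :
    G.deg (G.comp D v₀) v = 0 := by
  classical
  unfold deg
  rw [Finset.card_eq_zero, Finset.filter_eq_empty_iff]
  intro e he hv
  exact h (G.joined_of_mem_comp he hv)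

theorem exists_mem_of_deg_ne_zero {D : Finset E} {v : V} (h : G.deg D v ≠ 0) :
    ∃ e ∈ D, v ∈ G.ends e := by
  classical
  unfold deg at h
  rw [Finset.card_ne_zero] at h
  obtain ⟨e, he⟩ := h
  rw [Finset.mem_filter] at he
  exact ⟨e, he.1, he.2⟩

theorem joined_comp {D : Finset E} {v₀ v : V} (h : G.Joined D v₀ v) :
    G.Joined (G.comp D v₀) v₀ v := by
  induction h with
  | refl => exact Relation.ReflTransGen.refl
  | tail hx hxy ih =>
    obtain ⟨e, he, hxy⟩ := hxy
    refine Relation.ReflTransGen.tail ih ⟨e, ?_, hxy⟩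
    exact G.mem_comp.mpr ⟨he, _, by rw [hxy]; simp, hx⟩

theorem isCircuit_comp {D : Finset E} (hD : ∀ v, G.deg D v = 0 ∨ G.deg D v = 2) {e₀ : E}
    (he₀ : e₀ ∈ D) {v₀ : V} (hv₀ : v₀ ∈ G.ends e₀) : G.IsCircuit (G.comp D v₀) := by
  refine ⟨⟨e₀, G.mem_comp.mpr ⟨he₀, v₀, hv₀, Relation.ReflTransGen.refl⟩⟩, fun v => ?_,
    fun v w hv hw => ?_⟩
  · by_cases h : G.Joined D v₀ v
    · rw [G.deg_comp_of_joined h]
      exact hD v
    · exact Or.inl (G.deg_comp_of_not_joined h)
  · have key : ∀ u, G.deg (G.comp D v₀) u ≠ 0 → G.Joined (G.comp D v₀) v₀ u := by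
      intro u hu
      obtain ⟨e, he, hue⟩ := G.exists_mem_of_deg_ne_zero hu
      exact G.joined_comp (G.joined_of_mem_comp he hue)
    exact Relation.ReflTransGen.trans (G.joined_symm (key v hv)) (key w hw)

theorem deg_sdiff [DecidableEq E] {D D' : Finset E} (h : D' ⊆ D) (v : V) :
    G.deg (D \ D') v = G.deg D v - G.deg D' v := by
  classical
  unfold deg
  rw [← Finset.card_sdiff_of_subset (Finset.filter_subset_filter _ h)]
  congr 1
  ext e
  simp only [Finset.mem_filter, Finset.mem_sdiff]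
  tauto

open scoped Classical in
/-- A `0`-`2`-regular subgraph decomposes into circuits. -/
theorem exists_circuits (D : Finset E) (hD : ∀ v, G.deg D v = 0 ∨ G.deg D v = 2) :
    ∃ 𝓕 : Multiset (Finset E), (∀ C ∈ 𝓕, G.IsCircuit C) ∧
      ∀ e, 𝓕.countP (fun C => e ∈ C) = if e ∈ D then 1 else 0 := by
  induction D using Finset.strongInduction with
  | H D ih =>
    rcases D.eq_empty_or_nonempty with rfl | ⟨e₀, he₀⟩
    · exact ⟨0, by simp, by simp⟩
    · obtain ⟨v₀, w₀, hvw₀, hends₀⟩ := G.exists_ends e₀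
      have hv₀ : v₀ ∈ G.ends e₀ := by rw [hends₀]; simp
      have hcirc := G.isCircuit_comp hD he₀ hv₀
      have hsub := G.comp_subset D v₀
      have hlt : D \ G.comp D v₀ ⊂ D := by
        refine Finset.sdiff_ssubset hsub hcirc.1
      obtain ⟨𝓕, h1, h2⟩ := ih _ hlt (fun v => by
        rw [G.deg_sdiff hsub]
        by_cases h : G.Joined D v₀ v
        · rw [G.deg_comp_of_joined h]
          exact Or.inl (Nat.sub_self _)
        · rw [G.deg_comp_of_not_joined h]
          exact hD v)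
      refine ⟨G.comp D v₀ ::ₘ 𝓕, fun C hC => ?_, fun e => ?_⟩
      · rcases Multiset.mem_cons.mp hC with rfl | hC
        · exact hcirc
        · exact h1 C hC
      · rw [Multiset.countP_cons, h2]
        by_cases he : e ∈ G.comp D v₀
        · simp [he, hsub he]
        · by_cases he' : e ∈ D
          · simp [he, he']
          · simp [he, he']

open scoped Classical in
theorem exists_cdc_aux [Fintype E] {ι : Type*} [Fintype ι] (hG : ∀ v, G.deg Finset.univ v ≤ 3)
    {C : Finset E} (hC : G.IsCircuit C) (D : ι → Finset E) (hD : ∀ i v, Even (G.deg (D i) v))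
    (hcov : ∀ e, (if e ∈ C then 1 else 0) + ∑ i, (if e ∈ D i then 1 else 0) = 2) :
    ∃ 𝓕, G.IsCircuitDoubleCover 𝓕 ∧ C ∈ 𝓕 := by
  have hD2 : ∀ i v, G.deg (D i) v = 0 ∨ G.deg (D i) v = 2 := by
    intro i v
    have h1 := hD i v
    have h2 : G.deg (D i) v ≤ 3 := by
      refine le_trans ?_ (hG v)
      unfold deg
      exact Finset.card_le_card (Finset.filter_subset_filter _ (Finset.subset_univ _))
    rcases h1 with ⟨r, hr⟩
    omega
  choose 𝓕 h𝓕 hcount using fun i => G.exists_circuits (D i) (hD2 i)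
  refine ⟨C ::ₘ ∑ i, 𝓕 i, ⟨fun C' hC' => ?_, fun e => ?_⟩, Multiset.mem_cons_self _ _⟩
  · rcases Multiset.mem_cons.mp hC' with rfl | hC'
    · exact hC
    · rw [Multiset.mem_sum] at hC'
      obtain ⟨i, -, hi⟩ := hC'
      exact h𝓕 i C' hi
  · rw [Multiset.countP_cons, ← hcov e, add_comm]
    have h1 : Multiset.countP (fun D => e ∈ D) (∑ i, 𝓕 i) =
        ∑ i, Multiset.countP (fun D => e ∈ D) (𝓕 i) := by
      exact map_sum (Multiset.countPAddMonoidHom (fun D : Finset E => e ∈ D)) 𝓕 Finset.univ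
    congr 1
    rw [h1]
    exact Finset.sum_congr rfl fun i _ => hcount i e

/-- In a subcubic graph, a double cover by even subgraphs one of which is the circuit `C` gives a
circuit double cover that contains `C`. -/
theorem exists_cdc [Fintype E] [DecidableEq E] {ι : Type*} [Fintype ι]
    (hG : ∀ v, G.deg Finset.univ v ≤ 3)
    {C : Finset E} (hC : G.IsCircuit C) (D : ι → Finset E) (hD : ∀ i v, Even (G.deg (D i) v))
    (hcov : ∀ e, (if e ∈ C then 1 else 0) + ∑ i, (if e ∈ D i then 1 else 0) = 2) :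
    ∃ 𝓕, G.IsCircuitDoubleCover 𝓕 ∧ C ∈ 𝓕 := by
  refine G.exists_cdc_aux hG hC D hD fun e => ?_
  convert hcov e

end MultiGraph

end Pool.Agent.Lib.CDC
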