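import Mathlib

/-!
# A parity lemma for Hermitian matrices over the field with four elements

For a Hermitian matrix `H` over `F_4` there is a vector `b` with all entries non-zero such that
`∑ j, H i j * b j` lies in `{0, b i}` for every `i`.  (The number of such vectors is odd.)
-/

set_option autoImplicit false

open Finset Matrix

noncomputable section

namespace Pool.Agent.Lib.CDC

section Field

variable {F : Type*} [Field F]

theorem sq_eq_self_iff {x : F} : x ^ 2 = x ↔ x = 0 ∨ x = 1 := by
  constructor
  · intro h
    have : x * (x - 1) = 0 := by linear_combination h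
    rcases mul_eq_zero.mp this with h | h
    · exact Or.inl h
    · exact Or.inr (by linear_combination h)
  · rintro (h | h) <;> simp [h]

variable [Fintype F]

theorem pow_four (hF : Fintype.card F = 4) (x : F) : x ^ 4 = x := by
  have := FiniteField.pow_card x
  rwa [hF] at this

theorem add_self_F (hF : Fintype.card F = 4) (x : F) : x + x = 0 := by
  have h1 : (4 : F) = 0 := by
    have := FiniteField.cast_card_eq_zero F
    rw [hF] at this
    exact_mod_cast this
  have h2 : (2 : F) * 2 = 0 := by
    rw [← h1]; norm_num
  have h3 : (2 : F) = 0 := by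
    rcases mul_eq_zero.mp h2 with h | h <;> exact h
  have : x + x = 2 * x := by ring
  rw [this, h3, zero_mul]

theorem charP_two (hF : Fintype.card F = 4) : CharP F 2 := by
  refine CharTwo.of_one_ne_zero_of_two_eq_zero one_ne_zero ?_
  have := add_self_F hF (1 : F)
  rw [← this]; norm_num

theorem pow_three (hF : Fintype.card F = 4) {x : F} (hx : x ≠ 0) : x ^ 3 = 1 := by
  have := pow_four hF x
  have h2 : x * (x ^ 3 - 1) = 0 := by linear_combination this
  rcases mul_eq_zero.mp h2 with h | h
  · exact absurd h hx
  · linear_combination h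

variable {ι : Type*} [Fintype ι] [DecidableEq ι]

/-- The element `0` or `1` of `F`. -/
def bit (b : Bool) : F := if b then 1 else 0

/-- The sum of the determinants of `H + D` over all zero-one diagonal matrices `D`. -/
theorem sum_det (hF : Fintype.card F = 4) (H : Matrix ι ι F) :
    ∑ D : ι → Bool, (H + Matrix.diagonal fun i => (bit (D i) : F)).det = 1 := by
  have := charP_two hF
  simp only [Matrix.det_apply']
  rw [Finset.sum_comm]
  have key : ∀ σ : Equiv.Perm ι,
      ∑ D : ι → Bool, ((Equiv.Perm.sign σ : ℤ) : F) *
        ∏ i, (H + Matrix.diagonal fun i => (bit (D i) : F)) (σ i) i =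
      ((Equiv.Perm.sign σ : ℤ) : F) * ∏ i, (if σ i = i then (1 : F) else 0) := by
    intro σ
    rw [← Finset.mul_sum]
    congr 1
    have h1 : ∀ D : ι → Bool, ∏ i, (H + Matrix.diagonal fun i => (bit (D i) : F)) (σ i) i =
        ∏ i, (H (σ i) i + if σ i = i then (bit (D i) : F) else 0) := by
      intro D
      refine Finset.prod_congr rfl fun i _ => ?_
      rw [Matrix.add_apply, Matrix.diagonal_apply]
      congr 1
      split_ifs with h
      · rw [h]
      · rfl
    simp only [h1]
    have h2 := Finset.prod_univ_sum (fun _ : ι => (Finset.univ : Finset Bool))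
      (fun i b => (H (σ i) i + if σ i = i then (bit b : F) else 0))
    rw [Fintype.piFinset_univ] at h2
    rw [← h2]
    refine Finset.prod_congr rfl fun i _ => ?_
    rw [Fintype.sum_bool]
    generalize H (σ i) i = x
    have h3 := CharTwo.add_self_eq_zero x
    have b1 : (bit true : F) = 1 := rfl
    have b0 : (bit false : F) = 0 := rfl
    by_cases h : σ i = i
    · rw [if_pos h, if_pos h, if_pos h, b1, b0]
      linear_combination h3
    · rw [if_neg h, if_neg h, if_neg h]
      linear_combination h3
  rw [Finset.sum_congr rfl fun σ _ => key σ]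
  rw [Finset.sum_eq_single (1 : Equiv.Perm ι)]
  · simp
  · intro σ _ hσ
    obtain ⟨i, hi⟩ : ∃ i, σ i ≠ i := by
      by_contra h
      push Not at h
      exact hσ (Equiv.ext h)
    rw [Finset.prod_eq_zero (Finset.mem_univ i) (by simp [hi]), mul_zero]
  · simp

/-- A Hermitian matrix over `F_4` has determinant `0` or `1`. -/
theorem det_sq (M : Matrix ι ι F) (hF : Fintype.card F = 4) (hM : ∀ i j, M j i = M i j ^ 2) :
    M.det ^ 2 = M.det := by
  have := charP_two hF
  have h1 : Mᵀ = M.map (frobenius F 2) := by
    ext i j
    simp [Matrix.transpose_apply, frobenius_def, hM i j]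
  have h2 := RingHom.map_det (frobenius F 2) M
  rw [RingHom.mapMatrix_apply, ← h1, Matrix.det_transpose, frobenius_def] at h2
  exact h2

/-- The parity of the number of vectors in the kernel of a matrix. -/
theorem card_ker (hF : Fintype.card F = 4) (M : Matrix ι ι F) [DecidableEq F] :
    (∑ b : ι → F, if M.mulVec b = 0 then (1 : ZMod 2) else 0) =
      if M.det = 0 then 0 else 1 := by
  rw [← Finset.sum_filter]
  split_ifs with h
  · obtain ⟨v, hv, hMv⟩ := Matrix.exists_mulVec_eq_zero_iff.mpr h
    refine Finset.sum_involution (fun b _ => b + v) ?_ ?_ ?_ ?_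
    · intro b _
      decide
    · intro b _ _ hb
      exact hv (by simpa using hb)
    · intro b hb
      simp only [Finset.mem_filter, Finset.mem_univ, true_and] at hb ⊢
      rw [Matrix.mulVec_add, hb, hMv, add_zero]
    · intro b _
      funext i
      have := add_self_F hF (v i)
      simp only [Pi.add_apply]
      linear_combination this
  · have : (Finset.univ.filter fun b : ι → F => M.mulVec b = 0) = {0} := by
      ext b
      simp only [Finset.mem_filter, Finset.mem_univ, true_and, Finset.mem_singleton]
      constructor
      · intro hb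
        exact Matrix.eq_zero_of_mulVec_eq_zero h hb
      · rintro rfl
        simp
    rw [this]
    simp

/-- **Parity lemma.**  For a Hermitian matrix `H` over `F_4` there is a vector `b` with all
entries non-zero such that each entry of `H b` is zero or the corresponding entry of `b`. -/
theorem exists_nowhere_zero (hF : Fintype.card F = 4) (H : ι → ι → F)
    (hH : ∀ i j, H j i = H i j ^ 2) :
    ∃ b : ι → F, (∀ i, b i ≠ 0) ∧ ∀ i, (∑ j, H i j * b j = 0 ∨ ∑ j, H i j * b j = b i) := by
  classical
  by_contra hno
  push Not at hno
  have := charP_two hF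
  set T : ZMod 2 := ∑ D : ι → Bool, ∑ b : ι → F,
    ∏ i, (if ∑ j, H i j * b j = bit (D i) * b i then (1 : ZMod 2) else 0) with hT
  have e2 : T = 0 := by
    rw [hT, Finset.sum_comm]
    refine Finset.sum_eq_zero fun b _ => ?_
    have h2 := Finset.prod_univ_sum (fun _ : ι => (Finset.univ : Finset Bool))
      (fun i x => (if ∑ j, H i j * b j = bit x * b i then (1 : ZMod 2) else 0))
    rw [Fintype.piFinset_univ] at h2
    rw [← h2]
    by_cases hb : ∀ i, b i ≠ 0
    · obtain ⟨i, hi1, hi2⟩ := hno b hb
      refine Finset.prod_eq_zero (Finset.mem_univ i) ?_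
      have b1 : (bit true : F) = 1 := rfl
      have b0 : (bit false : F) = 0 := rfl
      rw [Fintype.sum_bool, b1, b0, one_mul, zero_mul, if_neg hi1, if_neg hi2, add_zero]
    · push Not at hb
      obtain ⟨i, hi⟩ := hb
      refine Finset.prod_eq_zero (Finset.mem_univ i) ?_
      rw [hi]
      rw [Fintype.sum_bool]
      simp only [mul_zero]
      split_ifs <;> decide
  have e1 : T = ∑ D : ι → Bool,
      if (Matrix.of H + Matrix.diagonal fun i => (bit (D i) : F)).det = 0 then (0 : ZMod 2)
      else 1 := by
    rw [hT]
    refine Finset.sum_congr rfl fun D _ => ?_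
    rw [← card_ker hF]
    refine Finset.sum_congr rfl fun b _ => ?_
    rw [Finset.prod_ite_zero]
    simp only [Finset.mem_univ, forall_const, Finset.prod_const_one]
    congr 1
    simp only [eq_iff_iff]
    rw [funext_iff]
    refine forall_congr' fun i => ?_
    rw [Matrix.add_mulVec, Pi.add_apply, Matrix.mulVec_diagonal, Pi.zero_apply]
    simp only [Matrix.mulVec, dotProduct, Matrix.of_apply]
    rw [CharTwo.add_eq_zero]
  have hdet : ∀ D : ι → Bool,
      (Matrix.of H + Matrix.diagonal fun i => (bit (D i) : F)).det =
        if (Matrix.of H + Matrix.diagonal fun i => (bit (D i) : F)).det = 0 then (0 : F) else 1 := by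
    intro D
    have h1 := det_sq (Matrix.of H + Matrix.diagonal fun i => (bit (D i) : F)) hF (by
      intro i j
      simp only [Matrix.add_apply, Matrix.of_apply, Matrix.diagonal_apply]
      rw [CharTwo.add_sq, hH i j]
      congr 1
      by_cases hij : i = j
      · subst hij
        simp only [if_true, bit]
        split_ifs <;> simp
      · rw [if_neg hij, if_neg (fun h => hij h.symm)]
        simp)
    rw [sq_eq_self_iff] at h1
    split_ifs with h
    · exact h
    · exact h1.resolve_left h
  set c : ℕ := (Finset.univ.filter fun D : ι → Bool =>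
    ¬ (Matrix.of H + Matrix.diagonal fun i => (bit (D i) : F)).det = 0).card with hc
  have c1 : ((c : ℕ) : ZMod 2) = 0 := by
    rw [← e2, e1, hc, Finset.card_filter]
    push_cast
    refine Finset.sum_congr rfl fun D _ => ?_
    by_cases h : (Matrix.of H + Matrix.diagonal fun i => (bit (D i) : F)).det = 0
    · rw [if_pos h, if_neg (not_not.mpr h)]
    · rw [if_neg h, if_pos h]
  have c2 : ((c : ℕ) : F) = 1 := by
    rw [← sum_det hF (Matrix.of H), hc, Finset.card_filter]
    push_cast
    refine Finset.sum_congr rfl fun D _ => ?_
    rw [hdet D]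
    by_cases h : (Matrix.of H + Matrix.diagonal fun i => (bit (D i) : F)).det = 0
    · rw [if_pos h, if_neg (by simp)]
    · rw [if_neg h, if_pos one_ne_zero]
  rw [ZMod.natCast_eq_zero_iff] at c1
  obtain ⟨k, hk⟩ := c1
  rw [hk] at c2
  push_cast at c2
  have h2 : (2 : F) = 0 := CharTwo.two_eq_zero
  rw [h2, zero_mul] at c2
  exact zero_ne_one c2

end Field

end Pool.Agent.Lib.CDC
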