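import Mathlib
import Pool.Agent.Lib.CDC.F4
import Pool.Agent.Lib.CDC.Basic

/-!
# Circuits with a nowhere-zero `4`-flow off the circuit lie in a `5`-cycle double cover
-/

set_option autoImplicit false

open Finset

noncomputable section

namespace Pool.Agent.Lib.CDC

namespace MultiGraph

variable {V E : Type*} [Fintype V] [Fintype E] (G : MultiGraph V E)
variable {F : Type*} [Field F] [Fintype F]

omit [Fintype V] [Fintype F] in
theorem bd_mul_sq_eq_zero [CharP F 2] {C : Finset E} {v : V}
    (h : G.deg C v = 0 ∨ G.deg C v = 2) {f g : E → F} (hf : ∀ e ∉ C, f e = 0)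
    (hg : ∀ e ∉ C, g e = 0) (hf0 : G.bd f v = 0) (hg0 : G.bd g v = 0) :
    G.bd (fun e => f e * g e ^ 2) v = 0 := by
  have hfg : ∀ e ∉ C, (fun e => f e * g e ^ 2) e = 0 := by
    intro e he
    simp only [hf e he, zero_mul]
  rcases G.bd_cases (R := F) h with h | ⟨e₁, e₂, h⟩
  · exact h _ hfg
  · rw [h f hf, CharTwo.add_eq_zero] at hf0
    rw [h g hg, CharTwo.add_eq_zero] at hg0
    rw [h _ hfg, hf0, hg0, CharTwo.add_self_eq_zero]

/-- The partial traces. -/
def B {Q : Type*} [DecidableEq Q] (κ : V → Q) (s : Q → E → F) (M J L : Q) : F :=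
  ∑ v, (if κ v = M then 1 else 0) * G.bd (fun e => s J e * s L e ^ 2) v

section

variable {Q : Type*} [Fintype Q] [DecidableEq Q] (κ : V → Q) (s : Q → E → F)

omit [Fintype Q] [Fintype F] in
theorem B_eq_zero [CharP F 2] {C : Finset E} (hC : ∀ v, G.deg C v = 0 ∨ G.deg C v = 2)
    (hsupp : ∀ K, ∀ e ∉ C, s K e = 0) (hloc : ∀ K v, κ v ≠ K → G.bd (s K) v = 0)
    {M J L : Q} (hJ : M ≠ J) (hL : M ≠ L) : G.B κ s M J L = 0 := by
  unfold B
  refine Finset.sum_eq_zero fun v _ => ?_
  split_ifs with h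
  · rw [one_mul]
    exact G.bd_mul_sq_eq_zero (hC v) (hsupp J) (hsupp L) (hloc J v (h ▸ hJ)) (hloc L v (h ▸ hL))
  · rw [zero_mul]

omit [Fintype F] in
theorem sum_B [CharP F 2] (J L : Q) : ∑ M, G.B κ s M J L = 0 := by
  unfold B
  rw [Finset.sum_comm]
  simp only [← Finset.sum_mul, Finset.sum_ite_eq, Finset.mem_univ, if_true, one_mul]
  exact G.sum_bd _

omit [Fintype Q] in
theorem B_swap (hF : Fintype.card F = 4) (M J L : Q) : G.B κ s M L J = G.B κ s M J L ^ 2 := by
  have := charP_two hF
  unfold B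
  rw [CharTwo.sum_sq]
  refine Finset.sum_congr rfl fun v _ => ?_
  rw [mul_pow]
  congr 1
  · split_ifs <;> simp
  · have h1 := G.bd_map (frobenius F 2).toAddMonoidHom (fun e => s J e * s L e ^ 2) v
    simp only [RingHom.toAddMonoidHom_eq_coe, AddMonoidHom.coe_coe, frobenius_def] at h1
    rw [h1]
    refine G.bd_congr fun e _ => ?_
    have := pow_four hF (s L e)
    linear_combination (- s J e ^ 2) * this

theorem exists_scaling (hF : Fintype.card F = 4) {C : Finset E}
    (hC : ∀ v, G.deg C v = 0 ∨ G.deg C v = 2)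
    (hsupp : ∀ K, ∀ e ∉ C, s K e = 0) (hloc : ∀ K v, κ v ≠ K → G.bd (s K) v = 0) :
    ∃ a : Q → F, (∀ K, a K ≠ 0) ∧
      ∀ K, ∑ v, (if κ v = K then 1 else 0) * G.bd (fun e => (∑ J, a J * s J e) ^ 3) v = 0 := by
  have := charP_two hF
  have hdiag : ∀ K, G.B κ s K K K = 0 := by
    intro K
    have h1 := G.sum_B κ s K K
    rw [Finset.sum_eq_single K] at h1
    · exact h1
    · intro M _ hM
      exact G.B_eq_zero κ s hC hsupp hloc hM hM
    · simp
  have hoff : ∀ K L, K ≠ L → G.B κ s K K L = G.B κ s L K L := by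
    intro K L hKL
    have h1 := G.sum_B κ s K L
    rw [← Finset.add_sum_erase _ _ (Finset.mem_univ K),
      ← Finset.add_sum_erase (Finset.univ.erase K) _
        (Finset.mem_erase.mpr ⟨hKL.symm, Finset.mem_univ L⟩), Finset.sum_eq_zero, add_zero] at h1
    · rwa [CharTwo.add_eq_zero] at h1
    · intro M hM
      simp only [Finset.mem_erase, Finset.mem_univ, and_true] at hM
      exact G.B_eq_zero κ s hC hsupp hloc hM.2 hM.1
  obtain ⟨b, hb0, hb⟩ := exists_nowhere_zero hF (fun K L => G.B κ s K K L) (by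
    intro K L
    by_cases hKL : K = L
    · subst hKL
      rw [hdiag]
      simp
    · rw [hoff K L hKL, ← G.B_swap κ s hF])
  refine ⟨fun K => b K ^ 2, fun K => pow_ne_zero 2 (hb0 K), fun K => ?_⟩
  have hb4 : ∀ L, (b L ^ 2) ^ 2 = b L := by
    intro L
    rw [← pow_mul]
    exact pow_four hF (b L)
  -- expand the cube
  have h1 : ∀ e, (∑ J, b J ^ 2 * s J e) ^ 3 = ∑ J, ∑ L, b J ^ 2 * b L * (s J e * s L e ^ 2) := by
    intro e
    have h2 : (∑ J, b J ^ 2 * s J e) ^ 3 = (∑ J, b J ^ 2 * s J e) * (∑ J, b J ^ 2 * s J e) ^ 2 := by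
      ring
    rw [h2, CharTwo.sum_sq, Finset.sum_mul_sum]
    refine Finset.sum_congr rfl fun J _ => Finset.sum_congr rfl fun L _ => ?_
    rw [mul_pow, hb4]
    ring
  have h3 : ∑ v, (if κ v = K then (1 : F) else 0) *
      G.bd (fun e => (∑ J, b J ^ 2 * s J e) ^ 3) v =
      ∑ J, ∑ L, b J ^ 2 * b L * G.B κ s K J L := by
    have h4 : ∀ v, G.bd (fun e => (∑ J, b J ^ 2 * s J e) ^ 3) v =
        ∑ J, ∑ L, b J ^ 2 * b L * G.bd (fun e => s J e * s L e ^ 2) v := by
      intro v
      simp only [h1]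
      rw [G.bd_sum]
      refine Finset.sum_congr rfl fun J _ => ?_
      rw [G.bd_sum]
      refine Finset.sum_congr rfl fun L _ => ?_
      rw [G.bd_mul]
    simp only [h4, Finset.mul_sum]
    rw [Finset.sum_comm]
    refine Finset.sum_congr rfl fun J _ => ?_
    rw [Finset.sum_comm]
    refine Finset.sum_congr rfl fun L _ => ?_
    unfold B
    rw [Finset.mul_sum]
    refine Finset.sum_congr rfl fun v _ => ?_
    ring
  rw [h3]
  set y : F := b K ^ 2 * ∑ L, G.B κ s K K L * b L with hy
  have hy1 : y ^ 2 = y := by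
    rw [sq_eq_self_iff]
    rcases hb K with h | h
    · left
      rw [hy, h, mul_zero]
    · right
      rw [hy, h]
      have := pow_three hF (hb0 K)
      linear_combination this
  have hrow : ∑ L, b K ^ 2 * b L * G.B κ s K K L = y := by
    rw [hy, Finset.mul_sum]
    exact Finset.sum_congr rfl fun L _ => by ring
  have hcol : ∑ J, b J ^ 2 * b K * G.B κ s K J K = y ^ 2 := by
    rw [hy, mul_pow, hb4, CharTwo.sum_sq, Finset.mul_sum]
    refine Finset.sum_congr rfl fun J _ => ?_
    rw [G.B_swap κ s hF K K J]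
    ring
  rw [← Finset.add_sum_erase _ _ (Finset.mem_univ K), hrow]
  have hrest : ∀ J ∈ Finset.univ.erase K, ∑ L, b J ^ 2 * b L * G.B κ s K J L =
      b J ^ 2 * b K * G.B κ s K J K := by
    intro J hJ
    have hJ' : J ≠ K := (Finset.mem_erase.mp hJ).1
    rw [Finset.sum_eq_single K]
    · intro L _ hL
      rw [G.B_eq_zero κ s hC hsupp hloc hJ'.symm hL.symm, mul_zero]
    · simp
  rw [Finset.sum_congr rfl hrest]
  have h5 : ∑ J ∈ Finset.univ.erase K, b J ^ 2 * b K * G.B κ s K J K = y ^ 2 := by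
    rw [← hcol, ← Finset.add_sum_erase _ _ (Finset.mem_univ K), hdiag, mul_zero, zero_add]
  rw [h5, hy1, CharTwo.add_self_eq_zero]

end

/-- Two linear functionals on `F_4` that determine the elements. -/
theorem exists_functionals (hF : Fintype.card F = 4) :
    ∃ l : Fin 2 → F →+ ZMod 2, ∀ x : F, l 0 x = 0 → l 1 x = 0 → x = 0 := by
  have := charP_two hF
  let _ : Algebra (ZMod 2) F := ZMod.algebra F 2
  have hfin : Module.finrank (ZMod 2) F = 2 := by
    have h1 := Module.card_eq_pow_finrank (K := ZMod 2) (V := F)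
    rw [hF, ZMod.card] at h1
    have h2 : 2 ^ 2 = 2 ^ Module.finrank (ZMod 2) F := by rw [← h1]; norm_num
    exact (Nat.pow_right_injective (le_refl 2) h2).symm
  have hb := Module.finBasisOfFinrankEq (ZMod 2) F hfin
  refine ⟨fun i => (hb.coord i).toAddMonoidHom, fun x h0 h1 => ?_⟩
  refine hb.forall_coord_eq_zero_iff.mp fun i => ?_
  fin_cases i
  · exact h0
  · exact h1

theorem zmod_two_ite (x : ZMod 2) : x = if x = 1 then 1 else 0 := by
  revert x; decide

theorem count_fact_one (x y : ZMod 2) (h : x ≠ 0 ∨ y ≠ 0) :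
    (1 : ℕ) + ((if (0 : ZMod 2) = 1 then 1 else 0) + (if 1 + 0 + x = 1 then 1 else 0) +
      (if 1 + 0 + y = 1 then 1 else 0) + (if 1 + 0 + (x + y) = 1 then 1 else 0)) = 2 := by
  revert x y; decide

theorem count_fact_two (x y z : ZMod 2) (h : x ≠ 0 ∨ y ≠ 0) :
    ((if z = 1 then 1 else 0) + (if z + x = 1 then 1 else 0) +
      (if z + y = 1 then 1 else 0) + (if z + (x + y) = 1 then 1 else 0) : ℕ) = 2 := by
  revert x y z; decide

/-- **Theorem A.**  Let `C` be a circuit of the subgraph with edge set `S`, and `φ` an `F_4`-flow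
of that subgraph which is non-zero off `C`.  Then five even subgraphs, one of them `C`, cover every
edge of `S` exactly twice. -/
theorem five_cover (hF : Fintype.card F = 4) {S C : Finset E} (hCS : C ⊆ S) (hC : G.IsCircuit C)
    (φ : E → F) (hφ0 : ∀ e ∉ S, φ e = 0) (hφ : ∀ e ∈ S, e ∉ C → φ e ≠ 0)
    (hflow : ∀ v, G.bd φ v = 0) [DecidableEq E] :
    ∃ D : Fin 4 → Finset E, (∀ i v, Even (G.deg (D i) v)) ∧
      ∀ e, (if e ∈ C then 1 else 0) + ∑ i, (if e ∈ D i then 1 else 0) =
        if e ∈ S then 2 else 0 := by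
  classical
  have hchar := charP_two hF
  obtain ⟨hCne, hC2, hCconn⟩ := hC
  -- the classes of vertices joined off `C`
  set Q := Quotient (G.joinedSetoid (S \ C)) with hQ
  set κ : V → Q := fun v => Quotient.mk (G.joinedSetoid (S \ C)) v with hκ
  have hκeq : ∀ v w, κ v = κ w ↔ G.Joined (S \ C) v w := by
    intro v w
    exact Quotient.eq (r := G.joinedSetoid (S \ C))
  have : Fintype Q := Fintype.ofFinite Q
  have hends : ∀ e ∈ S, e ∉ C → ∀ x y, G.ends e = s(x, y) → κ x = κ y := by
    intro e heS heC x y he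
    rw [hκeq]
    exact G.joined_of_ends (Finset.mem_sdiff.mpr ⟨heS, heC⟩) (by rw [he]; simp) (by rw [he]; simp)
  -- the part of `φ` off `C`
  set ψ : E → F := fun e => if e ∈ C then 0 else φ e with hψ
  have hψ0 : ∀ e, ψ e ≠ 0 → e ∈ S ∧ e ∉ C := by
    intro e he
    simp only [hψ] at he
    split_ifs at he with h
    · exact absurd rfl he
    · refine ⟨?_, h⟩
      by_contra h2
      exact he (hφ0 e h2)
  obtain ⟨e₀, he₀⟩ := hCne
  obtain ⟨v₀, w₀, hvw₀, hends₀⟩ := G.exists_ends e₀
  have hdegpos : ∀ e ∈ C, ∀ v, v ∈ G.ends e → G.deg C v ≠ 0 := by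
    intro e he v hv
    unfold deg
    rw [Finset.card_ne_zero]
    exact ⟨e, by simp [he, hv]⟩
  have hv₀ : G.deg C v₀ ≠ 0 := hdegpos e₀ he₀ v₀ (by rw [hends₀]; simp)
  have hψC : ∀ v, G.deg C v = 0 → G.bd ψ v = 0 := by
    intro v hv
    rw [← hflow v]
    refine G.bd_congr fun e he => ?_
    simp only [hψ]
    rw [if_neg]
    intro h
    exact hdegpos e h v he hv
  -- the flows `s K`
  have hsK : ∀ K : Q, ∃ s : E → F, (∀ e ∉ C, s e = 0) ∧
      ∀ u, G.bd s u = if κ u = K then G.bd ψ u else 0 := by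
    intro K
    refine G.exists_bd_eq (S := C) _ v₀ ?_ ?_
    · intro v hv
      have h1 : G.deg C v ≠ 0 := by
        intro h
        rw [hψC v h] at hv
        simp at hv
      exact hCconn v v₀ h1 hv₀
    · have h1 := G.sum_mul_bd (fun v => if κ v = K then (1 : F) else 0) ψ (by
        intro e x y _ he
        by_cases h : ψ e = 0
        · rw [h, mul_zero]
        · obtain ⟨h1, h2⟩ := hψ0 e h
          rw [hends e h1 h2 x y he, CharTwo.add_self_eq_zero, zero_mul])
      refine Eq.trans (Finset.sum_congr rfl fun v _ => ?_) h1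
      split_ifs <;> simp
  choose s hs0 hsbd using hsK
  have hloc : ∀ K v, κ v ≠ K → G.bd (s K) v = 0 := by
    intro K v h
    rw [hsbd, if_neg h]
  obtain ⟨a, ha0, ha⟩ := G.exists_scaling κ s hF hC2 hs0 hloc
  set st : E → F := fun e => ∑ J, a J * s J e with hst
  have hst0 : ∀ e ∉ C, st e = 0 := by
    intro e he
    exact Finset.sum_eq_zero fun J _ => by rw [hs0 J e he, mul_zero]
  have hstbd : ∀ v, G.bd st v = a (κ v) * G.bd ψ v := by
    intro v
    rw [hst, G.bd_sum]
    simp only [G.bd_mul, hsbd]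
    rw [Finset.sum_eq_single (κ v)]
    · rw [if_pos rfl]
    · intro J _ hJ
      rw [if_neg hJ.symm, mul_zero]
    · simp
  -- the rescaled flow
  set θ : E → F := fun e => st e + a (κ (Quot.out (G.ends e)).1) * ψ e with hθ
  have hθbd : ∀ v, G.bd θ v = 0 := by
    intro v
    rw [hθ, G.bd_add, hstbd]
    have h1 : G.bd (fun e => a (κ (Quot.out (G.ends e)).1) * ψ e) v =
        G.bd (fun e => a (κ v) * ψ e) v := by
      refine G.bd_congr fun e he => ?_
      by_cases h : ψ e = 0
      · rw [h, mul_zero, mul_zero]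
      · obtain ⟨h1, h2⟩ := hψ0 e h
        have h3 : κ (Quot.out (G.ends e)).1 = κ v := by
          rw [hκeq]
          exact G.joined_of_ends (Finset.mem_sdiff.mpr ⟨h1, h2⟩) (Sym2.out_fst_mem _) he
        rw [h3]
    rw [h1, G.bd_mul, CharTwo.add_self_eq_zero]
  -- the zero set of the flow on `C`
  set ζ := ZMod.castHom (dvd_refl 2) F with hζ
  have hζinj : Function.Injective ζ := ζ.injective
  set u : E → ZMod 2 := fun e => if e ∈ C ∧ st e = 0 then 1 else 0 with hu
  have hζu : ∀ e, ζ (u e) = (if e ∈ C then 1 else 0) + st e ^ 3 := by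
    intro e
    simp only [hu]
    by_cases he : e ∈ C
    · by_cases h : st e = 0
      · simp [he, h]
      · have := pow_three hF h
        simp only [he, h, and_false, if_false, if_true, map_zero]
        rw [this, CharTwo.add_self_eq_zero]
    · simp [he, hst0 e he]
  have huK : ∀ K : Q, ∑ v, (if κ v = K then G.bd u v else 0) = 0 := by
    intro K
    apply hζinj
    rw [map_zero, map_sum, ← ha K]
    refine Finset.sum_congr rfl fun v _ => ?_
    split_ifs with h
    · rw [one_mul]
      have h1 := G.bd_map ζ.toAddMonoidHom u v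
      simp only [RingHom.toAddMonoidHom_eq_coe, AddMonoidHom.coe_coe] at h1
      rw [h1]
      simp only [hζu]
      rw [G.bd_add, G.bd_indicator]
      have h3 : ((G.deg C v : ℕ) : F) = 0 := by
        rcases hC2 v with h2 | h2
        · rw [h2, Nat.cast_zero]
        · rw [h2]
          have := CharTwo.two_eq_zero (R := F)
          exact_mod_cast this
      rw [h3, zero_add]
    · rw [map_zero, zero_mul]
  have hj : ∀ K : Q, ∃ j : E → ZMod 2, (∀ e ∉ S \ C, j e = 0) ∧
      ∀ w, G.bd j w = if κ w = K then G.bd u w else 0 := by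
    intro K
    obtain ⟨v₁, hv₁⟩ := Quotient.exists_rep K
    refine G.exists_bd_eq (S := S \ C) _ v₁ ?_ (huK K)
    intro v hv
    have h1 : κ v = K := by
      by_contra h
      rw [if_neg h] at hv
      exact hv rfl
    rw [← hv₁] at h1
    exact (hκeq v v₁).mp h1
  choose j hj0 hjbd using hj
  set jt : E → ZMod 2 := fun e => ∑ K, j K e with hjt
  have hjt0 : ∀ e ∉ S \ C, jt e = 0 := fun e he => Finset.sum_eq_zero fun K _ => hj0 K e he
  have hjtbd : ∀ w, G.bd jt w = G.bd u w := by
    intro w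
    rw [hjt, G.bd_sum]
    simp only [hjbd]
    rw [Finset.sum_ite_eq]
    simp
  obtain ⟨l, hl⟩ := exists_functionals hF
  set p : Fin 2 → E → ZMod 2 := fun i e => l i (θ e) with hp
  have hpbd : ∀ i v, G.bd (p i) v = 0 := by
    intro i v
    have h1 := G.bd_map (l i) θ v
    rw [hθbd, map_zero] at h1
    exact h1.symm
  set c : E → ZMod 2 := fun e => if e ∈ C then 1 else 0 with hc
  have hcbd : ∀ v, G.bd c v = 0 := by
    intro v
    rw [hc, G.bd_indicator]
    rcases hC2 v with h2 | h2 <;> rw [h2] <;> decide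
  set δ : E → ZMod 2 := fun e => u e + jt e with hδ
  have hδbd : ∀ v, G.bd δ v = 0 := by
    intro v
    rw [hδ, G.bd_add, hjtbd, CharTwo.add_self_eq_zero]
  have hcδ : ∀ v, G.bd (fun e => c e + δ e) v = 0 := by
    intro v
    rw [G.bd_add, hcbd]
    exact (zero_add _).trans (hδbd v)
  set D : Fin 4 → E → ZMod 2 := fun i e => match i with
    | 0 => δ e
    | 1 => c e + δ e + p 0 e
    | 2 => c e + δ e + p 1 e
    | 3 => c e + δ e + (p 0 e + p 1 e) with hD
  have hDbd : ∀ i v, G.bd (D i) v = 0 := by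
    intro i v
    fin_cases i
    · exact hδbd v
    · change G.bd (fun e => (c e + δ e) + p 0 e) v = 0
      rw [G.bd_add (fun e => c e + δ e) (fun e => p 0 e), hcδ, zero_add]
      exact hpbd 0 v
    · change G.bd (fun e => (c e + δ e) + p 1 e) v = 0
      rw [G.bd_add (fun e => c e + δ e) (fun e => p 1 e), hcδ, zero_add]
      exact hpbd 1 v
    · change G.bd (fun e => (c e + δ e) + (p 0 e + p 1 e)) v = 0
      rw [G.bd_add (fun e => c e + δ e) (fun e => p 0 e + p 1 e), hcδ, zero_add,
        G.bd_add (fun e => p 0 e) (fun e => p 1 e)]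
      have h1 := hpbd 0 v
      have h2 := hpbd 1 v
      simp only [hp] at h1 h2 ⊢
      rw [h1, h2, add_zero]
  refine ⟨fun i => Finset.univ.filter fun e => D i e = 1, fun i v => ?_, fun e => ?_⟩
  · have h1 := hDbd i v
    have h2 : G.bd (D i) v =
        G.bd (fun e => if e ∈ (Finset.univ.filter fun e => D i e = 1) then (1 : ZMod 2) else 0)
          v := by
      refine G.bd_congr fun e _ => ?_
      simp only [Finset.mem_filter, Finset.mem_univ, true_and]
      refine (zmod_two_ite (D i e)).trans ?_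
      congr
    rw [h2, G.bd_indicator, ZMod.natCast_eq_zero_iff, ← even_iff_two_dvd] at h1
    exact h1
  · simp only [Finset.mem_filter, Finset.mem_univ, true_and]
    rw [Fin.sum_univ_four]
    simp only [hD]
    have hp0 : ∀ i, θ e = 0 → p i e = 0 := by
      intro i h
      simp only [hp, h, map_zero]
    have hp1 : θ e ≠ 0 → p 0 e ≠ 0 ∨ p 1 e ≠ 0 := by
      intro h
      by_contra h2
      push Not at h2
      exact h (hl _ h2.1 h2.2)
    by_cases heC : e ∈ C
    · have heS := hCS heC
      have h1 : jt e = 0 := hjt0 e (by simp [heC])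
      have h2 : ψ e = 0 := by simp [hψ, heC]
      have h3 : θ e = st e := by simp only [hθ, h2, mul_zero, add_zero]
      rw [if_pos heC, if_pos heS]
      simp only [hc, hδ, h1, if_pos heC, add_zero]
      by_cases h4 : st e = 0
      · have h5 : u e = 1 := by simp [hu, heC, h4]
        rw [h5, hp0 0 (h3.trans h4), hp0 1 (h3.trans h4)]
        decide
      · have h5 : u e = 0 := by simp [hu, h4]
        have h6 := hp1 (by rwa [h3])
        rw [h5]
        refine Eq.trans ?_ (count_fact_one _ _ h6)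
        congr
    · by_cases heS : e ∈ S
      · have h2 : ψ e = φ e := by simp [hψ, heC]
        have h3 : θ e ≠ 0 := by
          simp only [hθ, h2, hst0 e heC, zero_add]
          exact mul_ne_zero (ha0 _) (hφ e heS heC)
        have h5 : u e = 0 := by simp [hu, heC]
        have h6 := hp1 h3
        rw [if_neg heC, if_pos heS]
        simp only [hc, hδ, h5, if_neg heC, zero_add]
        refine Eq.trans ?_ (count_fact_two (p 0 e) (p 1 e) (jt e) h6)
        congr
      · have h2 : ψ e = 0 := by simp [hψ, hφ0 e heS]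
        have h3 : θ e = 0 := by simp only [hθ, h2, hst0 e heC, mul_zero, add_zero]
        have h5 : u e = 0 := by simp [hu, heC]
        have h1 : jt e = 0 := hjt0 e (by simp [heS])
        rw [if_neg heC, if_neg heS]
        simp only [hc, hδ, h5, h1, if_neg heC, zero_add, hp0 0 h3, hp0 1 h3]
        decide

end MultiGraph

end Pool.Agent.Lib.CDC
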