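import Mathlib
import Pool.Agent.Lib.CDC.TheoremA
import Pool.Agent.Lib.CDC.Circuits

/-!
# Near-Hamiltonian cubic multigraphs
-/

set_option autoImplicit false

open Finset

noncomputable section

namespace Pool.Agent.Lib.CDC

namespace MultiGraph

variable {V E : Type*} [Fintype V] [Fintype E] (G : MultiGraph V E)

theorem exists_field_four : ∃ (F : Type) (_ : Field F) (_ : Fintype F), Fintype.card F = 4 := by
  have : Fact (Nat.Prime 2) := ⟨Nat.prime_two⟩
  have h := GaloisField.card 2 2 (by norm_num)
  let i : Fintype (GaloisField 2 2) := Fintype.ofFinite _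
  refine ⟨GaloisField 2 2, inferInstance, i, ?_⟩
  rw [Nat.card_eq_fintype_card] at h
  rw [h]
  norm_num

theorem exists_generator {F : Type*} [Field F] [Fintype F] (hF : Fintype.card F = 4) :
    ∃ ρ : F, ρ ≠ 0 ∧ ρ ≠ 1 := by
  classical
  by_contra h
  push Not at h
  have h1 : (Finset.univ : Finset F) ⊆ {0, 1} := by
    intro x _
    by_cases hx : x = 0
    · simp [hx]
    · simp [h x hx]
  have h2 := Finset.card_le_card h1
  rw [Finset.card_univ, hF] at h2
  have h3 := Finset.card_le_two (a := (0 : F)) (b := 1)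
  omega

/-- If a circuit `L` and an edge set `N` disjoint from it cover all edges off `C`, and `N` has even
degree at the vertices off `L`, then there is a circuit double cover containing `C`. -/
theorem exists_cdc_of_even_off (hG : ∀ v, G.deg Finset.univ v ≤ 3) {L C N : Finset E}
    (hL : G.IsCircuit L) (hC : G.IsCircuit C) (hN : ∀ e ∈ N, e ∉ L)
    (hcov : ∀ e, e ∉ C → e ∈ L ∨ e ∈ N) (heven : ∀ v, G.deg L v = 0 → Even (G.deg N v)) :
    ∃ 𝓕, G.IsCircuitDoubleCover 𝓕 ∧ C ∈ 𝓕 := by
  classical
  obtain ⟨F, _, _, hF⟩ := exists_field_four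
  obtain ⟨ρ, hρ0, hρ1⟩ := exists_generator hF
  have hchar := charP_two hF
  obtain ⟨⟨e₀, he₀⟩, hL2, hLconn⟩ := hL
  obtain ⟨v₀, w₀, hvw₀, hends₀⟩ := G.exists_ends e₀
  have hv₀ : G.deg L v₀ ≠ 0 := by
    unfold deg
    rw [Finset.card_ne_zero]
    exact ⟨e₀, by rw [Finset.mem_filter, hends₀]; simp [he₀]⟩
  set n : E → ZMod 2 := fun e => if e ∈ N then 1 else 0 with hn
  have hnbd : ∀ v, G.bd n v = (G.deg N v : ZMod 2) := fun v => by
    rw [hn, G.bd_indicator]
  obtain ⟨q, hq0, hqbd⟩ := G.exists_bd_eq (S := L) (G.bd n) v₀ (fun v hv => by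
    refine hLconn v v₀ ?_ hv₀
    intro h
    have h1 := heven v h
    rw [hnbd] at hv
    exact hv ((ZMod.natCast_eq_zero_iff _ _).mpr (even_iff_two_dvd.mp h1))) (G.sum_bd n)
  set ζ := ZMod.castHom (dvd_refl 2) F with hζ
  set cL : E → F := fun e => if e ∈ L then 1 else 0 with hcL
  have hcLbd : ∀ v, G.bd cL v = 0 := by
    intro v
    rw [hcL, G.bd_indicator]
    rcases hL2 v with h2 | h2
    · rw [h2, Nat.cast_zero]
    · rw [h2]
      have := CharTwo.two_eq_zero (R := F)
      exact_mod_cast this
  set p : E → ZMod 2 := fun e => n e + q e with hp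
  have hpbd : ∀ v, G.bd p v = 0 := by
    intro v
    rw [hp, G.bd_add, hqbd, CharTwo.add_self_eq_zero]
  have hζbd : ∀ v, G.bd (fun e => ζ (p e)) v = 0 := by
    intro v
    have h1 := G.bd_map ζ.toAddMonoidHom p v
    rw [hpbd, map_zero] at h1
    exact h1.symm
  obtain ⟨D, hD, hDcov⟩ := G.five_cover hF (Finset.subset_univ C) hC
    (fun e => ρ * cL e + ζ (p e)) (fun e he => absurd (Finset.mem_univ e) he)
    (fun e _ heC => by
      rcases hcov e heC with h | h
      · simp only [hcL, if_pos h, mul_one]
        intro h1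
        have h2 : ρ = ζ (p e) := by
          have h3 : ζ (p e) + ζ (p e) = 0 := CharTwo.add_self_eq_zero _
          linear_combination h1 - h3
        have h4 : p e = 0 ∨ p e = 1 := by
          generalize p e = x
          revert x
          decide
        rcases h4 with h4 | h4
        · rw [h4, map_zero] at h2
          exact hρ0 h2
        · rw [h4, map_one] at h2
          exact hρ1 h2
      · have h1 := hN e h
        simp only [hcL, if_neg h1, mul_zero, zero_add, hp, hq0 e h1, add_zero, hn, if_pos h,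
          map_one]
        exact one_ne_zero)
    (fun v => by rw [G.bd_add, G.bd_mul, hcLbd, hζbd, mul_zero, add_zero])
  refine G.exists_cdc hG hC D hD fun e => ?_
  have h1 := hDcov e
  rw [if_pos (Finset.mem_univ e)] at h1
  exact h1

omit [Fintype V] in
theorem even_deg_symmDiff [DecidableEq E] {C L : Finset E} {v : V} (hC : Even (G.deg C v))
    (hL : Even (G.deg L v)) : Even (G.deg (symmDiff C L) v) := by
  have h1 : ((G.deg (symmDiff C L) v : ℕ) : ZMod 2) = (G.deg C v : ZMod 2) + G.deg L v := by
    rw [← G.bd_indicator, ← G.bd_indicator, ← G.bd_indicator, ← G.bd_add]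
    refine G.bd_congr fun e _ => ?_
    by_cases h1 : e ∈ C <;> by_cases h2 : e ∈ L <;> simp [Finset.mem_symmDiff, h1, h2]
    exact (CharTwo.add_self_eq_zero (1 : ZMod 2)).symm
  rw [even_iff_two_dvd, ← ZMod.natCast_eq_zero_iff] at hC hL ⊢
  rw [h1, hC, hL, add_zero]

/-- The case of a vertex which is missed by both circuits. -/
theorem exists_cdc_of_missing (hcubic : G.IsCubic) {L C : Finset E} (hL : G.IsCircuit L)
    (hC : G.IsCircuit C) (x : V) (hLx : G.deg L x = 0) (hother : ∀ v, v ≠ x → G.deg L v ≠ 0)
    (hCx : G.deg C x = 0) : ∃ 𝓕, G.IsCircuitDoubleCover 𝓕 ∧ C ∈ 𝓕 := by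
  classical
  obtain ⟨F, _, _, hF⟩ := exists_field_four
  obtain ⟨ρ, hρ0, hρ1⟩ := exists_generator hF
  have hchar := charP_two hF
  have hL' := hL
  obtain ⟨⟨e₀, he₀⟩, hL2, hLconn⟩ := hL
  obtain ⟨v₀, w₀, hvw₀, hends₀⟩ := G.exists_ends e₀
  have hv₀ : G.deg L v₀ ≠ 0 := by
    unfold deg
    rw [Finset.card_ne_zero]
    exact ⟨e₀, by rw [Finset.mem_filter, hends₀]; simp [he₀]⟩
  have hnot : ∀ {T : Finset E}, G.deg T x = 0 → ∀ e, x ∈ G.ends e → e ∉ T := by
    intro T hT e he heT
    unfold deg at hT
    rw [Finset.card_eq_zero, Finset.filter_eq_empty_iff] at hT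
    exact hT heT he
  have h3 := hcubic x
  unfold deg at h3
  obtain ⟨a, b, c, hab, hac, hbc, habc⟩ := Finset.card_eq_three.mp h3
  have hmem : ∀ e, x ∈ G.ends e ↔ e = a ∨ e = b ∨ e = c := by
    intro e
    have h4 : e ∈ (Finset.univ.filter fun e => x ∈ G.ends e) ↔ e ∈ ({a, b, c} : Finset E) := by
      rw [habc]
    simpa using h4
  have hxa : x ∈ G.ends a := (hmem a).mpr (Or.inl rfl)
  have hxb : x ∈ G.ends b := (hmem b).mpr (Or.inr (Or.inl rfl))
  have hxc : x ∈ G.ends c := (hmem c).mpr (Or.inr (Or.inr rfl))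
  set S : Finset E := Finset.univ.filter fun e => e ∈ C → e ∈ L with hS
  set τ : E → F := fun e => if e ∈ C ∨ e ∈ L then 0 else if e = b then ρ else
    if e = c then 1 + ρ else 1 with hτ
  have hρ2 : (1 : F) + ρ ≠ 0 := by
    intro h
    apply hρ1
    have h5 : (1 : F) + 1 = 0 := CharTwo.add_self_eq_zero 1
    linear_combination h - h5
  have hτ0 : ∀ e, e ∉ C → e ∉ L → τ e ≠ 0 := by
    intro e h1 h2
    simp only [hτ, h1, h2, or_self, if_false]
    split_ifs
    · exact hρ0
    · exact hρ2
    · exact one_ne_zero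
  have hτx : G.bd τ x = 0 := by
    have h1 : G.bd τ x = ∑ e ∈ ({a, b, c} : Finset E), τ e := by
      rw [← habc, Finset.sum_filter]
      simp only [bd]
    rw [h1, Finset.sum_insert (by simp [hab, hac]), Finset.sum_insert (by simp [hbc]),
      Finset.sum_singleton]
    have ha : τ a = 1 := by
      simp only [hτ, hnot hCx a hxa, hnot hLx a hxa, or_self, if_false, hab, hac]
    have hb : τ b = ρ := by
      simp only [hτ, hnot hCx b hxb, hnot hLx b hxb, or_self, if_false, if_true]
    have hc : τ c = 1 + ρ := by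
      simp only [hτ, hnot hCx c hxc, hnot hLx c hxc, or_self, if_false, if_true, hbc.symm]
    rw [ha, hb, hc]
    have h5 : (1 : F) + ρ + (1 + ρ) = 0 := CharTwo.add_self_eq_zero _
    linear_combination h5
  obtain ⟨q, hq0, hqbd⟩ := G.exists_bd_eq (S := L) (G.bd τ) v₀ (fun v hv => by
    refine hLconn v v₀ (hother v ?_) hv₀
    rintro rfl
    exact hv hτx) (G.sum_bd τ)
  have hLS : L ⊆ S := by
    intro e he
    simp [hS, he]
  obtain ⟨D, hD, hDcov⟩ := G.five_cover hF hLS hL' (fun e => τ e + q e)
    (fun e he => by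
      simp only [hS, Finset.mem_filter, Finset.mem_univ, true_and] at he
      push Not at he
      simp only [hτ, he.1, true_or, if_true, hq0 e he.2, add_zero])
    (fun e he heL => by
      simp only [hS, Finset.mem_filter, Finset.mem_univ, true_and] at he
      have h1 : e ∉ C := fun h => heL (he h)
      simp only [hq0 e heL, add_zero]
      exact hτ0 e h1 heL)
    (fun v => by rw [G.bd_add, hqbd, CharTwo.add_self_eq_zero])
  refine G.exists_cdc (ι := Option (Fin 4)) (fun v => (hcubic v).le) hC
    (fun i => Option.elim i (symmDiff C L) D) ?_ ?_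
  · rintro (_ | i) v
    · refine G.even_deg_symmDiff ?_ ?_
      · rcases hC.2.1 v with h | h <;> rw [h] <;> decide
      · rcases hL2 v with h | h <;> rw [h] <;> decide
    · exact hD i v
  · intro e
    rw [Fintype.sum_option]
    simp only [Option.elim]
    have h1 := hDcov e
    have h2 : e ∈ S ↔ (e ∈ C → e ∈ L) := by simp [hS]
    have key : ∀ m : ℕ, (if e ∈ L then 1 else 0) + m = (if e ∈ S then 2 else 0) →
        (if e ∈ C then 1 else 0) + ((if e ∈ symmDiff C L then 1 else 0) + m) = 2 := by
      intro m hm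
      simp only [h2] at hm
      simp only [Finset.mem_symmDiff]
      by_cases hC : e ∈ C <;> by_cases hL : e ∈ L <;> simp [hC, hL] at hm ⊢ <;> omega
    exact key _ h1

omit [Fintype E] in
/-- The handshake lemma. -/
theorem sum_deg (L : Finset E) : ∑ v, G.deg L v = 2 * L.card := by
  classical
  unfold deg
  simp only [Finset.card_filter]
  rw [Finset.sum_comm]
  have h1 : ∀ e ∈ L, (∑ v, if v ∈ G.ends e then 1 else 0) = 2 := by
    intro e _
    obtain ⟨x, y, hxy, he⟩ := G.exists_ends e
    rw [he, ← Finset.card_filter]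
    have h2 : (Finset.univ.filter fun v => v ∈ s(x, y)) = {x, y} := by
      ext v
      simp
    rw [h2, Finset.card_pair hxy]
  rw [Finset.sum_congr rfl h1, Finset.sum_const, smul_eq_mul, mul_comm]

omit [Fintype E] in
/-- A circuit of length at least `n - 1` misses at most one vertex. -/
theorem card_missed_le {L : Finset E} (hL : G.IsCircuit L)
    (hcard : Fintype.card V ≤ L.card + 1) :
    (Finset.univ.filter fun v => G.deg L v = 0).card ≤ 1 := by
  classical
  have h1 := G.sum_deg L
  have h2 : ∀ v, G.deg L v = 2 - 2 * (if G.deg L v = 0 then 1 else 0) := by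
    intro v
    rcases hL.2.1 v with h | h <;> simp [h]
  have h3 : ∑ v, (G.deg L v + 2 * (if G.deg L v = 0 then 1 else 0)) = 2 * Fintype.card V := by
    have h4 : ∀ v ∈ (Finset.univ : Finset V),
        G.deg L v + 2 * (if G.deg L v = 0 then 1 else 0) = 2 := by
      intro v _
      rcases hL.2.1 v with h | h <;> simp [h]
    rw [Finset.sum_congr rfl h4, Finset.sum_const, Finset.card_univ, smul_eq_mul, mul_comm]
  rw [Finset.sum_add_distrib, ← Finset.mul_sum, ← Finset.card_filter, h1] at h3
  omega

/-- **Prescribed circuits in double covers of near-Hamiltonian cubic graphs.** -/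
theorem exists_cdc_near_hamiltonian (hcubic : G.IsCubic)
    (hcirc : ∃ L, G.IsCircuit L ∧ Fintype.card V ≤ L.card + 1) {C : Finset E}
    (hC : G.IsCircuit C) : ∃ 𝓕, G.IsCircuitDoubleCover 𝓕 ∧ C ∈ 𝓕 := by
  classical
  obtain ⟨L, hL, hcard⟩ := hcirc
  have hG : ∀ v, G.deg Finset.univ v ≤ 3 := fun v => (hcubic v).le
  by_cases hall : ∀ v, G.deg L v ≠ 0
  · refine G.exists_cdc_of_even_off hG (L := L) (N := Finset.univ \ L) hL hC ?_ ?_ ?_
    · intro e he
      simpa using he
    · intro e _
      by_cases h : e ∈ L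
      · exact Or.inl h
      · exact Or.inr (by simp [h])
    · intro v hv
      exact absurd hv (hall v)
  · push Not at hall
    obtain ⟨x, hx⟩ := hall
    have hother : ∀ v, v ≠ x → G.deg L v ≠ 0 := by
      intro v hv h
      have h1 := G.card_missed_le hL hcard
      rw [Finset.card_le_one] at h1
      exact hv (h1 v (by simp [h]) x (by simp [hx]))
    by_cases hCx : G.deg C x = 0
    · exact G.exists_cdc_of_missing hcubic hL hC x hx hother hCx
    · obtain ⟨f, hfC, hxf⟩ := G.exists_mem_of_deg_ne_zero hCx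
      have hfL : f ∉ L := by
        intro h
        unfold deg at hx
        rw [Finset.card_eq_zero, Finset.filter_eq_empty_iff] at hx
        exact hx h hxf
      refine G.exists_cdc_of_even_off hG (L := L) (N := (Finset.univ \ L) \ {f}) hL hC ?_ ?_ ?_
      · intro e he
        simp only [Finset.mem_sdiff, Finset.mem_univ, true_and] at he
        exact he.1
      · intro e heC
        have h1 : e ≠ f := by
          rintro rfl
          exact heC hfC
        by_cases h : e ∈ L
        · exact Or.inl h
        · exact Or.inr (by simp [h, h1])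
      · intro v hv
        have hvx : v = x := by
          by_contra h
          exact hother v h hv
        subst hvx
        rw [G.deg_sdiff (by simp [hfL]), G.deg_sdiff (Finset.subset_univ L), hcubic v, hv]
        have h1 : G.deg {f} v = 1 := by
          unfold deg
          rw [Finset.filter_singleton, if_pos hxf, Finset.card_singleton]
        rw [h1]
        decide

end MultiGraph

end Pool.Agent.Lib.CDC
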